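import Mathlib

set_option autoImplicit false
open Filter Topology

namespace Pool.Agent.H.MP_d219ff_an

/-- the circle -/
abbrev Cir : Type := AddCircle (1 : ℝ)

/-- the dyadic solenoid as a subgroup -/
def SolG : AddSubgroup (ℕ → Cir) where
  carrier := {x | ∀ n, x (n + 1) + x (n + 1) = x n}
  add_mem' := by
    intro a b ha hb n
    simp only [Pi.add_apply]
    rw [← ha n, ← hb n]; abel
  zero_mem' := by intro n; simp
  neg_mem' := by
    intro a ha n
    simp only [Pi.neg_apply]
    rw [← ha n]; abel

/-- the dyadic solenoid -/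
abbrev Sol : Type := SolG

lemma coord_cont (n : ℕ) : Continuous fun x : Sol => (x : ℕ → Cir) n :=
  (continuous_apply n).comp continuous_subtype_val

instance : CompactSpace Sol := by
  refine isCompact_iff_compactSpace.1 (IsClosed.isCompact ?_)
  have : (SolG : Set (ℕ → Cir)) = ⋂ n, {x | x (n + 1) + x (n + 1) = x n} := by
    ext x; simp only [Set.mem_iInter]; rfl
  rw [this]
  exact isClosed_iInter fun n => isClosed_eq (by fun_prop) (by fun_prop)

/-- the one-parameter subgroup -/
noncomputable def u (t : ℝ) : Sol := ⟨fun n => ((t / 2 ^ n : ℝ) : Cir), fun n => by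
  rw [← AddCircle.coe_add]; congr 1; rw [pow_succ]; field_simp; ring⟩

lemma u_apply (t : ℝ) (n : ℕ) : (u t : ℕ → Cir) n = ((t / 2 ^ n : ℝ) : Cir) := rfl

lemma u_add (s t : ℝ) : u (s + t) = u s + u t := by
  ext n
  simp only [AddSubgroup.coe_add, Pi.add_apply, u_apply]
  rw [← AddCircle.coe_add, add_div]

lemma u_zero : u 0 = 0 := by
  ext n; simp [u_apply]

lemma u_cont : Continuous u := by
  refine Continuous.subtype_mk (continuous_pi fun n => ?_) _
  exact (AddCircle.continuous_mk' 1).comp (by fun_prop)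

lemma pow_coord (x : Sol) (n m : ℕ) : 2 ^ m • (x : ℕ → Cir) (n + m) = (x : ℕ → Cir) n := by
  induction m with
  | zero => simp
  | succ m ih =>
    rw [pow_succ, mul_smul, two_smul, ← add_assoc, x.2, ih]

lemma coord_down {x y : Sol} {N : ℕ} (h : (x : ℕ → Cir) N = (y : ℕ → Cir) N) {n : ℕ}
    (hn : n ≤ N) : (x : ℕ → Cir) n = (y : ℕ → Cir) n := by
  obtain ⟨m, rfl⟩ := Nat.exists_eq_add_of_le hn
  rw [← pow_coord x n m, ← pow_coord y n m, h]

lemma u_dense : DenseRange u := by
  intro x
  have h : ∀ N : ℕ, ∃ t : ℝ, (u t : ℕ → Cir) N = (x : ℕ → Cir) N := by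
    intro N
    obtain ⟨s, hs⟩ := QuotientAddGroup.mk_surjective ((x : ℕ → Cir) N)
    refine ⟨s * 2 ^ N, ?_⟩
    rw [u_apply, mul_div_cancel_right₀ _ (by positivity)]
    exact hs
  choose t ht using h
  refine mem_closure_of_tendsto (f := fun N => u (t N)) (b := atTop) ?_
    (Eventually.of_forall fun N => ⟨_, rfl⟩)
  rw [tendsto_subtype_rng, tendsto_pi_nhds]
  intro n
  refine tendsto_const_nhds.congr' ?_
  filter_upwards [eventually_ge_atTop n] with N hN
  exact (coord_down (ht N) hN).symm

instance : PreconnectedSpace Sol := u_dense.preconnectedSpace u_cont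

lemma u_injOn : Set.InjOn u (Set.Ico 0 1) := by
  intro s hs t ht h
  have := congrArg (fun x : Sol => (x : ℕ → Cir) 0) h
  simp only [u_apply, pow_zero, div_one] at this
  exact (AddCircle.coe_eq_coe_iff_of_mem_Ico (a := 0) (by simpa using hs) (by simpa using ht)).1 this

lemma sol_uncountable : ¬ Countable Sol := by
  intro h
  have h1 : (Set.Ico (0 : ℝ) 1).Countable :=
    Set.countable_of_injective_of_countable_image u_injOn (Set.to_countable _)
  have := h1.measure_zero MeasureTheory.volume
  simp at this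

lemma no_inj (θ : Sol → ℝ) (hc : Continuous θ) : ¬ Function.Injective θ := by
  intro hi
  have hg : u (1 / 2) ≠ 0 := by
    rw [← u_zero]
    intro h
    have := u_injOn (by norm_num) (by norm_num) h
    norm_num at this
  obtain ⟨a, -, ha⟩ := isCompact_univ.exists_isMaxOn ⟨0, trivial⟩ hc.continuousOn
  obtain ⟨b, -, hb⟩ := isCompact_univ.exists_isMinOn ⟨0, trivial⟩ hc.continuousOn
  obtain ⟨c, hc'⟩ := intermediate_value_univ₂ (f := fun s => θ (s + u (1 / 2))) (g := θ)
    (a := a) (b := b) (hc.comp (by fun_prop)) hc (ha trivial) (hb trivial)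
  exact hg (by simpa using hi hc')

lemma sol_surj (φ : Sol → Sol) (hc : Continuous φ) (hi : Function.Injective φ) :
    Function.Surjective φ := by
  intro p
  by_contra hp
  push Not at hp
  obtain ⟨N, hN⟩ : ∃ N, ∀ s, (φ s : ℕ → Cir) N ≠ (p : ℕ → Cir) N := by
    by_contra h
    push Not at h
    have hcl : ∀ N, IsClosed {s | (φ s : ℕ → Cir) N = (p : ℕ → Cir) N} := fun N =>
      isClosed_eq ((coord_cont N).comp hc) continuous_const
    obtain ⟨s, hs⟩ := IsCompact.nonempty_iInter_of_sequence_nonempty_isCompact_isClosed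
      (fun N => {s | (φ s : ℕ → Cir) N = (p : ℕ → Cir) N})
      (fun N s hs => coord_down hs (Nat.le_succ N)) h (hcl 0).isCompact hcl
    simp only [Set.mem_iInter] at hs
    exact hp s (Subtype.ext (funext hs))
  obtain ⟨a, ha⟩ := QuotientAddGroup.mk_surjective ((p : ℕ → Cir) N)
  let θ : Sol → ℝ := fun s => AddCircle.equivIco 1 a ((φ s : ℕ → Cir) N)
  have hθ : Continuous θ := by
    refine continuous_subtype_val.comp (continuous_iff_continuousAt.2 fun s => ?_)
    exact ContinuousAt.comp (f := fun s => (φ s : ℕ → Cir) N)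
      (AddCircle.continuousAt_equivIco 1 a (by rw [ha]; exact hN s))
      ((coord_cont N).comp hc).continuousAt
  let ψ : Sol → Sol := fun s => φ s - u (θ s * 2 ^ N)
  have hψ : Continuous ψ := hc.sub (u_cont.comp (by fun_prop))
  have hψN : ∀ s, (ψ s : ℕ → Cir) N = (0 : Sol).1 N := by
    intro s
    simp only [ψ, AddSubgroup.coe_sub, Pi.sub_apply, u_apply]
    rw [mul_div_cancel_right₀ _ (by positivity)]
    simp [θ]
  have hconst : ∀ s s', ψ s = ψ s' := by
    intro s s'
    ext n
    have hsub : Set.range (fun s => (ψ s : ℕ → Cir) n) ⊆ {d : Cir | 2 ^ n • d = 0} := by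
      rintro _ ⟨s, rfl⟩
      have h1 := pow_coord (ψ s) 0 n
      rw [zero_add] at h1
      simpa [h1] using coord_down (hψN s) (Nat.zero_le N)
    have hfin := AddCircle.finite_torsion (1 : ℝ) (n := 2 ^ n) (by positivity)
    exact hfin.countable.isTotallyDisconnected _ hsub
      (isPreconnected_range ((coord_cont n).comp hψ)) ⟨s, rfl⟩ ⟨s', rfl⟩
  refine no_inj θ hθ fun s s' h => hi ?_
  have := hconst s s'
  simp only [ψ, h] at this
  exact sub_left_injective this

/-- monotone two-sided zero-one sequences -/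
abbrev Z0 : Type := {s : ℤ → Bool // Monotone s}

instance : CompactSpace Z0 := by
  refine isCompact_iff_compactSpace.1 (IsClosed.isCompact ?_)
  have : {s : ℤ → Bool | Monotone s} = ⋂ i, ⋂ j, ⋂ (_ : i ≤ j), {s | s i ≤ s j} := by
    ext s; simp only [Set.mem_iInter]; rfl
  show IsClosed {s : ℤ → Bool | Monotone s}
  rw [this]
  exact isClosed_iInter fun i => isClosed_iInter fun j => isClosed_iInter fun _ =>
    (isClosed_discrete {p : Bool × Bool | p.1 ≤ p.2}).preimage
      (f := fun s : ℤ → Bool => (s i, s j)) (by fun_prop)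

lemma zc (i : ℤ) : Continuous fun s : Z0 => s.1 i :=
  (continuous_apply i).comp continuous_subtype_val

/-- shifts -/
def sh (k : ℤ) (s : Z0) : Z0 := ⟨fun i => s.1 (i + k), fun _ _ h => s.2 (by omega)⟩

lemma sh_cont (k : ℤ) : Continuous (sh k) :=
  Continuous.subtype_mk (continuous_pi fun i => zc (i + k)) _

lemma sh_add (k l : ℤ) (s : Z0) : sh k (sh l s) = sh (k + l) s := by
  ext i; simp [sh, add_assoc]

lemma sh_zero (s : Z0) : sh 0 s = s := by ext i; simp [sh]

/-- the step sequence -/
def e0 : Z0 := ⟨fun i => decide (0 ≤ i), fun i j h => by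
  by_cases h1 : 0 ≤ i
  · have : 0 ≤ j := by omega
    simp [h1, this]
  · simp [h1]⟩

lemma classify (s : Z0) : sh 1 s = s ∨ ∃ k, s = sh k e0 := by
  by_cases h1 : ∀ i, s.1 i = false
  · left; ext i; simp [sh, h1]
  by_cases h2 : ∀ i, s.1 i = true
  · left; ext i; simp [sh, h2]
  right
  push Not at h1 h2
  obtain ⟨j, hj⟩ := h2
  obtain ⟨k, hk, hk'⟩ := Int.exists_least_of_bdd (P := fun i => s.1 i = true)
    ⟨j, fun i hi => by
      by_contra h
      have := s.2 (show i ≤ j by omega)
      rw [hi] at this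
      exact hj (top_le_iff.1 this)⟩ (by simpa using h1)
  refine ⟨-k, ?_⟩
  ext i
  simp only [sh, e0]
  by_cases h : k ≤ i
  · have := s.2 h
    rw [hk] at this
    rw [top_le_iff.1 this]
    simp; omega
  · have : s.1 i = false := by
      by_contra h3
      exact h (hk' i (by simpa using h3))
    rw [this]; simp; omega

lemma fixed_iff (s : Z0) (h : sh 1 s = s) (i : ℤ) : s.1 i = s.1 0 := by
  have h1 : ∀ i, s.1 (i + 1) = s.1 i := fun i => congrArg (fun t : Z0 => t.1 i) h
  induction i using Int.induction_on with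
  | zero => rfl
  | succ i ih => rw [h1, ih]
  | pred i ih => rw [← h1, sub_add_cancel, ih]

lemma e0_not_fixed (k : ℤ) (hk : k ≠ 0) : sh k e0 ≠ e0 := by
  intro h
  by_cases h1 : 0 < k
  · have := congrArg (fun t : Z0 => t.1 (-1)) h
    simp [sh, e0] at this; omega
  · have := congrArg (fun t : Z0 => t.1 0) h
    simp [sh, e0] at this; omega

lemma z_surj (π : Z0 → Z0) (hi : Function.Injective π) (hc : ∀ s, π (sh 1 s) = sh 1 (π s)) :
    Function.Surjective π := by
  have hk : ∀ k s, π (sh k s) = sh k (π s) := by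
    intro k
    induction k using Int.induction_on with
    | zero => intro s; simp [sh_zero]
    | succ i ih => intro s; rw [add_comm, ← sh_add, hc, ih, sh_add]
    | pred i ih =>
      intro s
      have h1 := ih s
      have h2 := hc (sh (-i - 1) s)
      rw [sh_add, show 1 + (-(i : ℤ) - 1) = -i by ring, h1] at h2
      have h3 := congrArg (sh (-1)) h2
      rw [sh_add, sh_add, show (-1 : ℤ) + 1 = 0 by ring, sh_zero] at h3
      rw [← h3]; congr 1; ring
  have hfix : ∀ t, sh 1 t = t → ∃ s, sh 1 s = s ∧ π s = t := by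
    have hfin : Finite {s : Z0 // sh 1 s = s} :=
      Finite.of_injective (fun s => s.1.1 0) fun s t h => by
        ext i
        rw [fixed_iff _ s.2, fixed_iff _ t.2]; exact h
    let π' : {s : Z0 // sh 1 s = s} → {s : Z0 // sh 1 s = s} :=
      fun s => ⟨π s.1, by rw [← hc, s.2]⟩
    have h1 : Function.Injective π' := fun s t h => Subtype.ext (hi (congrArg Subtype.val h))
    intro t ht
    obtain ⟨s, hs⟩ := Finite.surjective_of_injective h1 ⟨t, ht⟩
    exact ⟨s.1, s.2, congrArg Subtype.val hs⟩
  intro t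
  rcases classify t with h | ⟨k, rfl⟩
  · obtain ⟨s, _, hs⟩ := hfix t h
    exact ⟨s, hs⟩
  · rcases classify (π e0) with h | ⟨m, hm⟩
    · obtain ⟨s, hs, hs'⟩ := hfix _ h
      rw [hi hs'] at hs
      exact absurd hs (e0_not_fixed 1 one_ne_zero)
    · exact ⟨sh (k - m) e0, by rw [hk, hm, sh_add, sub_add_cancel]⟩

/-- the space -/
abbrev X : Type := Sol × Z0

/-- halving on the solenoid -/
def half (x : Sol) : Sol := ⟨fun n => (x : ℕ → Cir) (n + 1), fun n => x.2 (n + 1)⟩

/-- the map -/
def f : X ≃ₜ X where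
  toFun p := (p.1 + p.1, sh 1 p.2)
  invFun p := (half p.1, sh (-1) p.2)
  left_inv p := by
    refine Prod.ext ?_ (by simp [sh_add, sh_zero])
    ext n; exact p.1.2 n
  right_inv p := by
    refine Prod.ext ?_ (by simp [sh_add, sh_zero])
    ext n; exact p.1.2 n
  continuous_toFun := (continuous_fst.add continuous_fst).prodMk ((sh_cont 1).comp continuous_snd)
  continuous_invFun :=
    ((Continuous.subtype_mk (continuous_pi fun n => coord_cont (n + 1)) _).comp
      continuous_fst).prodMk ((sh_cont (-1)).comp continuous_snd)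

lemma surjunctive (τ : X → X) (hc : Continuous τ) (hf : ∀ x, τ (f x) = f (τ x))
    (hi : Function.Injective τ) : Function.Surjective τ := by
  have h2 : ∀ x s, (τ (x, s)).2 = (τ (0, s)).2 := by
    intro x s
    ext i
    exact PreconnectedSpace.constant inferInstance
      (f := fun x : Sol => (τ (x, s)).2.1 i) ((zc i).comp (by fun_prop))
  have h1 : ∀ s, Function.Surjective fun x => (τ (x, s)).1 := fun s =>
    sol_surj _ (by fun_prop) fun x y h => by
      have : τ (x, s) = τ (y, s) := Prod.ext h (by rw [h2 x, h2 y])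
      exact congrArg Prod.fst (hi this)
  have h3 : Function.Surjective fun s => (τ (0, s)).2 := by
    refine z_surj _ (fun s t h => ?_) (fun s => ?_)
    · obtain ⟨x, hx⟩ := h1 t (τ (0, s)).1
      have : τ (x, t) = τ (0, s) := Prod.ext hx (by rw [h2 x]; exact h.symm)
      exact (congrArg Prod.snd (hi this)).symm
    · have := congrArg Prod.snd (hf (0, s))
      have e : f (0, s) = (0, sh 1 s) := Prod.ext (add_zero _) rfl
      rw [e] at this
      exact this
  rintro ⟨y, t⟩
  obtain ⟨s, hs⟩ := h3 t
  obtain ⟨x, hx⟩ := h1 s y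
  exact ⟨(x, s), Prod.ext hx (by rw [h2 x]; exact hs)⟩

lemma f_iter (n : ℕ) (p : X) : (f^[n] p).2 = sh n p.2 := by
  induction n with
  | zero => simp [sh_zero]
  | succ n ih =>
    rw [Function.iterate_succ_apply']
    show sh 1 (f^[n] p).2 = _
    rw [ih, sh_add]; congr 1; push_cast; ring

lemma W_open : IsOpen {p : X | p.2 = e0} := by
  have : {p : X | p.2 = e0} = {p : X | p.2.1 0 = true} ∩ {p : X | p.2.1 (-1) = false} := by
    ext p
    constructor
    · intro h
      rw [Set.mem_ofPred_eq] at h
      simp [h, e0]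
    · rintro ⟨h1, h2⟩
      rw [Set.mem_ofPred_eq] at h1 h2 ⊢
      ext i
      by_cases h : 0 ≤ i
      · have := p.2.2 h
        rw [h1] at this
        rw [top_le_iff.1 this]; simp [e0, h]
      · have := p.2.2 (show i ≤ -1 by omega)
        rw [h2] at this
        rw [le_bot_iff.1 this]; simp [e0, h]
  rw [this]
  exact ((isOpen_discrete {true}).preimage ((zc 0).comp continuous_snd)).inter
    ((isOpen_discrete {false}).preimage ((zc (-1)).comp continuous_snd))

end Pool.Agent.H.MP_d219ff_an
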