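import Pool.Agent.H.MP_d219ff_an.A

set_option autoImplicit false
open Filter Topology

namespace Pool.Agent.H.MP_d219ff_an

/-- indicator of disagreement -/
def ind (a b : Bool) : ℝ := if a = b then 0 else 1

lemma ind_nonneg (a b : Bool) : 0 ≤ ind a b := by unfold ind; split_ifs <;> norm_num
lemma ind_le (a b : Bool) : ind a b ≤ 1 := by unfold ind; split_ifs <;> norm_num
lemma ind_symm (a b : Bool) : ind a b = ind b a := by cases a <;> cases b <;> simp [ind]
lemma ind_tri (a b c : Bool) : ind a c ≤ ind a b + ind b c := by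
  cases a <;> cases b <;> cases c <;> simp [ind]
lemma ind_self (a : Bool) : ind a a = 0 := by simp [ind]
lemma ind_lt {a b : Bool} (h : ind a b < 1) : a = b := by
  by_contra h1; simp [ind, h1] at h

/-- unweighted coordinate distances -/
noncomputable def del (i : ℕ ⊕ ℤ) (p q : X) : ℝ :=
  match i with
  | Sum.inl n => ‖(p.1 : ℕ → Cir) n - (q.1 : ℕ → Cir) n‖
  | Sum.inr i => ind (p.2.1 i) (q.2.1 i)

/-- size of an index -/
def sz (i : ℕ ⊕ ℤ) : ℕ :=
  match i with
  | Sum.inl n => n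
  | Sum.inr i => i.natAbs

lemma del_nonneg (i : ℕ ⊕ ℤ) (p q : X) : 0 ≤ del i p q := by
  cases i with
  | inl n => exact norm_nonneg _
  | inr i => exact ind_nonneg _ _

lemma del_le (i : ℕ ⊕ ℤ) (p q : X) : del i p q ≤ 1 := by
  cases i with
  | inl n =>
    have := AddCircle.norm_le_half_period (1 : ℝ)
      (x := (p.1 : ℕ → Cir) n - (q.1 : ℕ → Cir) n) one_ne_zero
    simp only [del]
    rw [abs_one] at this
    linarith
  | inr i => exact ind_le _ _

lemma del_symm (i : ℕ ⊕ ℤ) (p q : X) : del i p q = del i q p := by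
  cases i with
  | inl n => exact norm_sub_rev _ _
  | inr i => exact ind_symm _ _

lemma del_tri (i : ℕ ⊕ ℤ) (p q r : X) : del i p r ≤ del i p q + del i q r := by
  cases i with
  | inl n => exact norm_sub_le_norm_sub_add_norm_sub _ _ _
  | inr i => exact ind_tri _ _ _

lemma del_self (i : ℕ ⊕ ℤ) (p : X) : del i p p = 0 := by
  cases i with
  | inl n => simp [del]
  | inr i => exact ind_self _

lemma del_cont (i : ℕ ⊕ ℤ) (p : X) : Continuous (del i p) := by
  cases i with
  | inl n => exact (continuous_const.sub ((coord_cont n).comp continuous_fst)).norm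
  | inr i =>
    exact (continuous_of_discreteTopology (f := fun b : Bool => ind (p.2.1 i) b)).comp
      ((zc i).comp continuous_snd)

/-- the metric -/
noncomputable def d (p q : X) : ℝ := ⨆ i, del i p q / 2 ^ sz i

lemma le_d (i : ℕ ⊕ ℤ) (p q : X) : del i p q / 2 ^ sz i ≤ d p q := by
  refine le_ciSup (f := fun i => del i p q / 2 ^ sz i) ⟨1, ?_⟩ i
  rintro _ ⟨j, rfl⟩
  exact (div_le_self (del_nonneg _ _ _) (one_le_pow₀ (by norm_num))).trans (del_le _ _ _)

lemma d_le {p q : X} {r : ℝ} (h : ∀ i, del i p q / 2 ^ sz i ≤ r) : d p q ≤ r := ciSup_le h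

lemma d_nonneg (p q : X) : 0 ≤ d p q :=
  le_trans (div_nonneg (del_nonneg _ _ _) (by positivity)) (le_d (Sum.inl 0) p q)

lemma d_symm (p q : X) : d p q = d q p := by
  unfold d; simp only [del_symm _ p q]

lemma d_tri (p q r : X) : d p r ≤ d p q + d q r := d_le fun i => by
  have h1 := le_d i p q
  have h2 := le_d i q r
  have h3 := div_le_div_of_nonneg_right (del_tri i p q r) (show (0 : ℝ) ≤ 2 ^ sz i by positivity)
  rw [add_div] at h3
  linarith

lemma d_zero (p q : X) : d p q = 0 ↔ p = q := by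
  constructor
  · intro h
    have h1 : ∀ i, del i p q ≤ 0 := fun i => by
      have := le_d i p q
      rw [h, div_le_iff₀ (by positivity), zero_mul] at this
      exact this
    refine Prod.ext ?_ ?_
    · ext n
      exact sub_eq_zero.1 (norm_le_zero_iff.1 (h1 (Sum.inl n)))
    · ext i
      exact ind_lt (lt_of_le_of_lt (h1 (Sum.inr i)) one_pos)
  · rintro rfl
    exact le_antisymm (d_le fun i => by rw [del_self]; simp) (d_nonneg _ _)

lemma sz_fin (N : ℕ) : {i | sz i ≤ N}.Finite := by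
  refine (((Set.finite_Iic N).image Sum.inl).union
    ((Set.finite_Icc (-(N : ℤ)) N).image Sum.inr)).subset ?_
  rintro (n | i) h
  · exact Or.inl ⟨n, h, rfl⟩
  · refine Or.inr ⟨i, ?_, rfl⟩
    have : i.natAbs ≤ N := h
    constructor <;> omega

lemma d_open (U : Set X) : IsOpen U ↔ ∀ x ∈ U, ∃ r > 0, ∀ y, d x y < r → y ∈ U := by
  constructor
  · intro hU x hx
    by_contra h
    push Not at h
    let C : ℕ → Set X := fun k => Uᶜ ∩ ⋂ i, {y | del i x y / 2 ^ sz i ≤ 1 / ((k : ℝ) + 1)}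
    have hcl : ∀ k, IsClosed (C k) := fun k =>
      hU.isClosed_compl.inter (isClosed_iInter fun i =>
        isClosed_le ((del_cont i x).div_const _) continuous_const)
    obtain ⟨y, hy⟩ := IsCompact.nonempty_iInter_of_sequence_nonempty_isCompact_isClosed C
      (fun k y hy => ⟨hy.1, Set.mem_iInter.2 fun i => by
        have h1 : del i x y / 2 ^ sz i ≤ 1 / (((k + 1 : ℕ) : ℝ) + 1) := Set.mem_iInter.1 hy.2 i
        exact h1.trans (Nat.one_div_le_one_div (Nat.le_succ k))⟩)
      (fun k => by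
        obtain ⟨y, hy, hy'⟩ := h (1 / ((k : ℝ) + 1)) (by positivity)
        exact ⟨y, hy', Set.mem_iInter.2 fun i => (le_d i x y).trans hy.le⟩)
      (hcl 0).isCompact hcl
    have h1 : ∀ k : ℕ, d x y ≤ 1 / ((k : ℝ) + 1) := fun k =>
      d_le fun i => Set.mem_iInter.1 (Set.mem_iInter.1 hy k).2 i
    have h2 : d x y ≤ 0 := ge_of_tendsto' tendsto_one_div_add_atTop_nhds_zero_nat h1
    have h3 := (d_zero x y).1 (le_antisymm h2 (d_nonneg _ _))
    exact (Set.mem_iInter.1 hy 0).1 (h3 ▸ hx)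
  · intro h
    refine isOpen_iff_mem_nhds.2 fun x hx => ?_
    obtain ⟨r, hr, hr'⟩ := h x hx
    obtain ⟨N, hN⟩ := exists_pow_lt_of_lt_one (half_pos hr) (show (1 / 2 : ℝ) < 1 by norm_num)
    have h1 : ∀ᶠ y in 𝓝 x, ∀ i ∈ {i | sz i ≤ N}, del i x y < r / 2 := by
      refine (eventually_all_finite (sz_fin N)).2 fun i _ => ?_
      refine (del_cont i x).continuousAt.eventually_lt continuousAt_const ?_
      rw [del_self]; positivity
    filter_upwards [h1] with y hy
    refine hr' y (lt_of_le_of_lt (d_le fun i => ?_) (half_lt_self hr))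
    by_cases hi : sz i ≤ N
    · exact (div_le_self (del_nonneg _ _ _) (one_le_pow₀ (by norm_num))).trans (hy i hi).le
    · refine le_trans ?_ hN.le
      rw [one_div_pow]
      exact div_le_div₀ zero_le_one (del_le _ _ _) (by positivity)
        (pow_le_pow_right₀ (by norm_num) (by omega))

/-- the lift -/
noncomputable def ell (c : Cir) : ℝ := AddCircle.equivIco 1 (-1 / 2) c

lemma coe_ell (c : Cir) : ((ell c : ℝ) : Cir) = c := AddCircle.coe_equivIco

lemma ell_coe {t : ℝ} (h : |t| < 1 / 2) : ell (t : Cir) = t := by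
  unfold ell
  rw [abs_lt] at h
  rw [AddCircle.equivIco_coe_of_mem (by constructor <;> linarith)]

lemma abs_ell (c : Cir) : |ell c| = ‖c‖ := by
  have h := (AddCircle.equivIco 1 (-1 / 2) c).2
  conv_rhs => rw [← coe_ell c]
  symm
  rw [AddCircle.norm_coe_eq_abs_iff _ one_ne_zero, abs_one, abs_le]
  unfold ell
  constructor <;> linarith [h.1, h.2]

lemma ell_add {a b : Cir} (ha : ‖a‖ ≤ 1 / 8) (hb : ‖b‖ ≤ 1 / 8) :
    ell (a + b) = ell a + ell b := by
  rw [← abs_ell] at ha hb
  conv_lhs => rw [← coe_ell a, ← coe_ell b, ← AddCircle.coe_add]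
  exact ell_coe (by linarith [abs_add_le (ell a) (ell b)])

lemma ell_contAt {a : Cir} (ha : ‖a‖ ≤ 1 / 8) : ContinuousAt ell a := by
  refine continuous_subtype_val.continuousAt.comp (AddCircle.continuousAt_equivIco 1 _ ?_)
  intro h
  rw [h, (AddCircle.norm_coe_eq_abs_iff _ one_ne_zero).2 (by norm_num [abs_of_neg])] at ha
  norm_num [abs_of_neg] at ha

/-- splicing -/
def mix (s t : Z0) : Z0 := ⟨fun i => if 0 ≤ i then s.1 i else (t.1 i && s.1 0), fun i j h => by
  by_cases h1 : 0 ≤ i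
  · have h2 : 0 ≤ j := by omega
    simp only [h1, h2, if_true]
    exact s.2 h
  · by_cases h2 : 0 ≤ j
    · simp only [h1, h2, if_true, if_false]
      exact (Bool.and_le_right _ _).trans (s.2 h2)
    · simp only [h1, h2, if_false]
      have := t.2 h
      revert this
      cases t.1 i <;> cases t.1 j <;> cases s.1 0 <;> simp⟩

lemma and_of_le {a b : Bool} (h : a ≤ b) : (a && b) = a := by
  revert h; cases a <;> cases b <;> simp

lemma mix_cont : Continuous fun p : Z0 × Z0 => mix p.1 p.2 := by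
  refine Continuous.subtype_mk (continuous_pi fun i => ?_) _
  by_cases h : 0 ≤ i
  · simp only [h, if_true]
    exact (zc i).comp continuous_fst
  · simp only [h, if_false]
    exact (continuous_of_discreteTopology (f := fun b : Bool × Bool => (b.1 && b.2))).comp
      (((zc i).comp continuous_snd).prodMk ((zc 0).comp continuous_fst))

/-- the bracket -/
noncomputable def br (p q : X) : X :=
  (q.1 + u (ell ((p.1 : ℕ → Cir) 0 - (q.1 : ℕ → Cir) 0)), mix p.2 q.2)

lemma close1 {p q : X} (h : d p q ≤ 1 / 8) :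
    ‖(p.1 : ℕ → Cir) 0 - (q.1 : ℕ → Cir) 0‖ ≤ 1 / 8 := by
  have := (le_d (Sum.inl 0) p q).trans h
  simpa [del, sz] using this

lemma close2 {p q : X} (h : d p q ≤ 1 / 8) : p.2.1 0 = q.2.1 0 := by
  have := (le_d (Sum.inr 0) p q).trans h
  simp only [del, sz, Int.natAbs_zero, pow_zero, div_one] at this
  exact ind_lt (by linarith)

lemma br_zero (p q : X) : ((br p q).1 : ℕ → Cir) 0 = (p.1 : ℕ → Cir) 0 := by
  simp only [br, AddSubgroup.coe_add, Pi.add_apply, u_apply, pow_zero, div_one, coe_ell]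
  abel

lemma br_cont : ContinuousOn (fun p : X × X => br p.1 p.2) {p | d p.1 p.2 ≤ 1 / 8} := by
  intro p hp
  refine ContinuousAt.continuousWithinAt (ContinuousAt.prodMk ?_ ?_)
  · refine ContinuousAt.add (by fun_prop) (u_cont.continuousAt.comp ?_)
    exact ContinuousAt.comp (f := fun p : X × X => (p.1.1 : ℕ → Cir) 0 - (p.2.1 : ℕ → Cir) 0)
      (ell_contAt (close1 hp))
      (((coord_cont 0).comp (by fun_prop)).sub ((coord_cont 0).comp (by fun_prop))).continuousAt
  · exact (mix_cont.comp (f := fun p : X × X => (p.1.2, p.2.2)) (by fun_prop)).continuousAt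

lemma br_self (x : X) : br x x = x := by
  refine Prod.ext ?_ ?_
  · have : ell 0 = 0 := by simpa using ell_coe (t := 0) (by norm_num)
    simp [br, this, u_zero]
  · ext i
    simp only [br, mix]
    split_ifs with h
    · rfl
    · exact and_of_le (x.2.2 (by omega))

lemma br_right (x y z : X) (h1 : d y z ≤ 1 / 8) (h2 : d x (br y z) ≤ 1 / 8) :
    br x (br y z) = br x z := by
  refine Prod.ext ?_ ?_
  · have a1 := close1 h1
    have a2 := close1 h2
    rw [br_zero] at a2
    show (br y z).1 + u (ell (_ - ((br y z).1 : ℕ → Cir) 0)) = _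
    rw [br_zero]
    simp only [br]
    rw [add_assoc, ← u_add, add_comm (ell _), ← ell_add a2 a1, sub_add_sub_cancel]
  · ext i
    simp only [br, mix]
    split_ifs with h
    · rfl
    · rw [close2 h1, and_of_le (z.2.2 (show i ≤ 0 by omega))]

lemma br_left (x y z : X) : br (br x y) z = br x z := by
  refine Prod.ext ?_ ?_
  · show z.1 + u (ell (((br x y).1 : ℕ → Cir) 0 - _)) = _
    rw [br_zero]; rfl
  · ext i
    simp only [br, mix]
    split_ifs with h h' <;> first | rfl | omega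

lemma br_f (x y : X) (h1 : d x y ≤ 1 / 8) : f (br x y) = br (f x) (f y) := by
  refine Prod.ext ?_ ?_
  · have a1 := close1 h1
    show (br x y).1 + (br x y).1 = (y.1 + y.1) + u (ell (((x.1 : ℕ → Cir) 0 + (x.1 : ℕ → Cir) 0)
      - ((y.1 : ℕ → Cir) 0 + (y.1 : ℕ → Cir) 0)))
    rw [add_sub_add_comm, ell_add a1 a1, u_add]
    simp only [br]
    abel
  · have a2 := close2 h1
    ext i
    show (if 0 ≤ i + 1 then x.2.1 (i + 1) else (y.2.1 (i + 1) && x.2.1 0)) =
      if 0 ≤ i then x.2.1 (i + 1) else (y.2.1 (i + 1) && x.2.1 (0 + 1))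
    have a3 : y.2.1 0 ≤ x.2.1 (0 + 1) := a2 ▸ x.2.2 (by norm_num)
    split_ifs with h h' h'
    · rfl
    · have : i + 1 = 0 := by omega
      rw [this, and_of_le a3, a2]
    · omega
    · have a4 : y.2.1 (i + 1) ≤ y.2.1 0 := y.2.2 (by omega)
      rw [a2, and_of_le a4, and_of_le (a4.trans a3)]

lemma half_d (p q : X) (i : ℕ ⊕ ℤ) : del i p q / 2 ^ (sz i + 1) ≤ 1 / 2 * d p q := by
  have := le_d i p q
  rw [pow_succ, ← div_div]
  linarith

lemma stable (x y z : X) (hy : br y x = x) (hz : br z x = x) :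
    d (f y) (f z) ≤ 1 / 2 * d y z := by
  have a1 : (y.1 : ℕ → Cir) 0 = (z.1 : ℕ → Cir) 0 := by
    rw [← br_zero y x, ← br_zero z x, hy, hz]
  have a2 : ∀ i, 0 ≤ i → y.2.1 i = z.2.1 i := fun i hi => by
    have b1 := congrArg (fun p : X => p.2.1 i) hy
    have b2 := congrArg (fun p : X => p.2.1 i) hz
    simp only [br, mix, hi, if_true] at b1 b2
    rw [b1, b2]
  have h0 := d_nonneg y z
  refine d_le ?_
  rintro ((_ | n) | i)
  · show ‖((y.1 : ℕ → Cir) 0 + (y.1 : ℕ → Cir) 0) - ((z.1 : ℕ → Cir) 0 + (z.1 : ℕ → Cir) 0)‖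
      / _ ≤ _
    rw [a1, sub_self, norm_zero, zero_div]; positivity
  · show ‖((y.1 : ℕ → Cir) (n + 1) + (y.1 : ℕ → Cir) (n + 1)) -
      ((z.1 : ℕ → Cir) (n + 1) + (z.1 : ℕ → Cir) (n + 1))‖ / _ ≤ _
    rw [y.1.2, z.1.2]
    exact half_d y z (Sum.inl n)
  · show ind (y.2.1 (i + 1)) (z.2.1 (i + 1)) / 2 ^ i.natAbs ≤ _
    by_cases h : 0 ≤ i + 1
    · rw [a2 _ h, ind_self, zero_div]; positivity
    · rw [show i.natAbs = (i + 1).natAbs + 1 by omega]
      exact half_d y z (Sum.inr (i + 1))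

lemma unstable (x y z : X) (hy' : d x y ≤ 1 / 8) (hy : br x y = x) (hz' : d x z ≤ 1 / 8)
    (hz : br x z = x) : d (f.symm y) (f.symm z) ≤ 1 / 2 * d y z := by
  have a0 : ∀ w : X, d x w ≤ 1 / 8 → br x w = x → ∀ i, i ≤ 0 → w.2.1 i = x.2.1 i := by
    intro w h1 h2 i hi
    rcases hi.eq_or_lt with rfl | hi
    · exact (close2 h1).symm
    · have b1 := congrArg (fun p : X => p.2.1 i) h2
      simp only [br, mix, not_le.2 hi, if_false] at b1
      rw [← b1, close2 h1, and_of_le (w.2.2 hi.le)]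
  obtain ⟨t, ht, ht'⟩ : ∃ t : ℝ, |t| ≤ 1 / 4 ∧ y.1 - z.1 = u t := by
    have b1 : y.1 + u _ = x.1 := congrArg Prod.fst hy
    have b2 : z.1 + u _ = x.1 := congrArg Prod.fst hz
    have c1 := close1 hy'
    have c2 := close1 hz'
    rw [← abs_ell] at c1 c2
    set a := ell ((x.1 : ℕ → Cir) 0 - (y.1 : ℕ → Cir) 0)
    set b := ell ((x.1 : ℕ → Cir) 0 - (z.1 : ℕ → Cir) 0)
    refine ⟨b - a, by linarith [abs_sub b a], ?_⟩
    have : u (b - a) + u a = u b := by rw [← u_add, sub_add_cancel]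
    rw [eq_sub_of_add_eq b1, eq_sub_of_add_eq b2, ← this]; abel
  have hc : ∀ n, (y.1 : ℕ → Cir) n - (z.1 : ℕ → Cir) n = ((t / 2 ^ n : ℝ) : Cir) := fun n =>
    congrArg (fun w : Sol => (w : ℕ → Cir) n) ht'
  have hn : ∀ n : ℕ, ‖((t / 2 ^ n : ℝ) : Cir)‖ = |t| / 2 ^ n := fun n => by
    have e : |t / 2 ^ n| = |t| / 2 ^ n := by rw [abs_div, abs_of_pos (a := (2 : ℝ) ^ n) (by positivity)]
    rw [← e, AddCircle.norm_coe_eq_abs_iff _ one_ne_zero, e, abs_one]
    exact (div_le_self (abs_nonneg _) (one_le_pow₀ (by norm_num))).trans (by linarith)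
  have h0 := d_nonneg y z
  refine d_le ?_
  rintro (n | i)
  · show ‖(y.1 : ℕ → Cir) (n + 1) - (z.1 : ℕ → Cir) (n + 1)‖ / 2 ^ n ≤ _
    have := half_d y z (Sum.inl n)
    simp only [del, sz] at this
    rw [hc, hn] at this ⊢
    refine le_trans (le_of_eq ?_) this
    field_simp
  · show ind (y.2.1 (i + -1)) (z.2.1 (i + -1)) / 2 ^ i.natAbs ≤ _
    by_cases h : i + -1 ≤ 0
    · rw [a0 y hy' hy _ h, a0 z hz' hz _ h, ind_self, zero_div]; positivity
    · rw [show i.natAbs = (i + -1).natAbs + 1 by omega]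
      exact half_d y z (Sum.inr (i + -1))

lemma no_split {Y Z : Type} [TopologicalSpace Y] [TopologicalSpace Z] [Countable Z]
    (g : Y → Y) (σ : Z → Z)
    (hnw : ∀ U : Set Y, IsOpen U → U.Nonempty → ∃ n : ℕ, 1 ≤ n ∧ (g^[n] '' U ∩ U).Nonempty)
    (h : X ≃ₜ (Y ⊕ Z)) (hh : ∀ x : X, h (f x) = Sum.map g σ (h x)) : False := by
  have hit : ∀ (n : ℕ) (y : Y), h.symm (Sum.inl (g^[n] y)) = f^[n] (h.symm (Sum.inl y)) := by
    intro n y
    induction n with
    | zero => rfl
    | succ n ih =>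
      rw [Function.iterate_succ_apply', Function.iterate_succ_apply', ← ih, h.symm_apply_eq, hh,
        h.apply_symm_apply]
      rfl
  let U : Set Y := {y | (h.symm (Sum.inl y)).2 = e0}
  have hU : IsOpen U := W_open.preimage (h.symm.continuous.comp continuous_inl)
  rcases U.eq_empty_or_nonempty with hE | hN
  · have : ∀ x : Sol, ∃ z : Z, h (x, e0) = Sum.inr z := by
      intro x
      cases hx : h (x, e0) with
      | inl y =>
        have : y ∈ U := by
          show (h.symm (Sum.inl y)).2 = e0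
          rw [← hx, h.symm_apply_apply]
        rw [hE] at this
        exact this.elim
      | inr z => exact ⟨z, rfl⟩
    choose φ hφ using this
    refine sol_uncountable (Function.Injective.countable (f := φ) fun x y hxy => ?_)
    have : h (x, e0) = h (y, e0) := by rw [hφ, hφ, hxy]
    exact congrArg Prod.fst (h.injective this)
  · obtain ⟨n, hn, _, ⟨y, hy, rfl⟩, hy'⟩ := hnw U hU hN
    have h1 : (h.symm (Sum.inl (g^[n] y))).2 = e0 := hy'
    have h2 : (h.symm (Sum.inl y)).2 = e0 := hy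
    rw [hit, f_iter, h2] at h1
    exact e0_not_fixed n (by omega) h1

end Pool.Agent.H.MP_d219ff_an
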